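import Pool.Agent.WAP.StmtsL
import Pool.Agent.Helper32_WAP.Add

/-! Squad WAP, row CRI: the criterion for congruence. -/

namespace Pool.Agent.WAP.H75

open Classical WeierstrassCurve.Affine Pool.Agent.WAP

section ultra

variable {F : Type} [NormedField F] (hu : ∀ x y : F, ‖x + y‖ ≤ max ‖x‖ ‖y‖)

include hu

theorem add_le1 {x y : F} (hx : ‖x‖ ≤ 1) (hy : ‖y‖ ≤ 1) : ‖x + y‖ ≤ 1 :=
  (hu x y).trans (max_le hx hy)

theorem sub_le1 {x y : F} (hx : ‖x‖ ≤ 1) (hy : ‖y‖ ≤ 1) : ‖x - y‖ ≤ 1 := by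
  rw [sub_eq_add_neg]
  exact add_le1 hu hx (by rwa [norm_neg])

theorem add_lt1 {x y : F} (hx : ‖x‖ < 1) (hy : ‖y‖ < 1) : ‖x + y‖ < 1 :=
  (hu x y).trans_lt (max_lt hx hy)

theorem add_eq1 {x y : F} (hx : ‖x‖ < 1) (hy : ‖y‖ = 1) : ‖x + y‖ = 1 := by
  apply le_antisymm (add_le1 hu hx.le hy.le)
  by_contra h
  have h1 : ‖x + y‖ < 1 := not_le.1 h
  have h2 := hu (x + y) (-x)
  rw [norm_neg] at h2
  have h3 : x + y + -x = y := by ring
  rw [h3, hy] at h2
  exact absurd (max_lt h1 hx) (not_lt.2 h2)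

theorem big_iff {x a : F} (ha : ‖a‖ ≤ 1) : 1 < ‖x - a‖ ↔ 1 < ‖x‖ := by
  constructor
  · intro h
    by_contra h1
    exact absurd (sub_le1 hu (not_lt.1 h1) ha) (not_le.2 h)
  · intro h
    by_contra h1
    have := add_le1 hu (not_lt.1 h1) ha
    rw [sub_add_cancel] at this
    exact absurd this (not_le.2 h)

end ultra

theorem cri : CriStmt := by
  intro F _ _ ϖ hL hϖ d hd X1 Y1 X2 Y2 h1 h2 hX1 hX2
  have hu := hL.ultra
  have hd0 : d ≠ 0 := by
    intro h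
    rw [h, norm_zero] at hd
    exact zero_ne_one hd
  have n2 : ‖(2 : F)‖ = 1 := by
    have e : algebraMap GaussianInt F 2 = 2 := map_ofNat _ 2
    apply le_antisymm
    · rw [← e]
      exact hL.int 2
    · by_contra h
      apply hϖ
      rw [← hL.lt_one, e]
      exact not_le.1 h
  have n3 : ‖(3 : F)‖ ≤ 1 := by
    have e : algebraMap GaussianInt F 3 = 3 := map_ofNat _ 3
    rw [← e]
    exact hL.int 3
  have h20 : (2 : F) ≠ 0 := by
    intro h
    rw [h, norm_zero] at n2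
    exact zero_ne_one n2
  have e1 : Y1 ^ 2 = X1 ^ 3 - d ^ 2 * X1 := (W_equation d X1 Y1).mp h1.1
  have e2 : Y2 ^ 2 = X2 ^ 3 - d ^ 2 * X2 := (W_equation d X2 Y2).mp h2.1
  -- Y is integral
  have hYle : ∀ X Y : F, ‖X‖ ≤ 1 → Y ^ 2 = X ^ 3 - d ^ 2 * X → ‖Y‖ ≤ 1 := by
    intro X Y hX e
    have h3 : ‖Y‖ ^ 2 ≤ 1 := by
      rw [← norm_pow, e]
      apply sub_le1 hu
      · rw [norm_pow]
        exact pow_le_one₀ (norm_nonneg _) hX
      · rw [norm_mul, norm_pow, hd, one_pow, one_mul]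
        exact hX
    by_contra h4
    have h5 : 1 < ‖Y‖ := not_le.1 h4
    nlinarith
  have hY1 := hYle X1 Y1 hX1 e1
  have hY2 := hYle X2 Y2 hX2 e2
  -- the derivative is a unit if Y is small
  have hunit : ∀ X Y : F, ‖X‖ ≤ 1 → ‖Y‖ < 1 → Y ^ 2 = X ^ 3 - d ^ 2 * X →
      ‖3 * X ^ 2 - d ^ 2‖ = 1 := by
    intro X Y hX hY e
    have h3 : ‖X‖ * ‖X ^ 2 - d ^ 2‖ < 1 := by
      have h4 : X * (X ^ 2 - d ^ 2) = Y ^ 2 := by rw [e]; ring
      rw [← norm_mul, h4, norm_pow]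
      exact pow_lt_one₀ (norm_nonneg _) hY (by norm_num)
    have hsq : ‖X ^ 2‖ ≤ 1 := by
      rw [norm_pow]
      exact pow_le_one₀ (norm_nonneg _) hX
    by_cases h5 : ‖X‖ < 1
    · have h6 : 3 * X ^ 2 - d ^ 2 = 3 * X ^ 2 + -(d ^ 2) := by ring
      rw [h6]
      apply add_eq1 hu
      · rw [norm_mul, norm_pow]
        have h7 : ‖X‖ ^ 2 < 1 := pow_lt_one₀ (norm_nonneg _) h5 (by norm_num)
        calc ‖(3 : F)‖ * ‖X‖ ^ 2 ≤ 1 * ‖X‖ ^ 2 :=
              mul_le_mul_of_nonneg_right n3 (by positivity)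
          _ < 1 := by rw [one_mul]; exact h7
      · rw [norm_neg, norm_pow, hd, one_pow]
    · have hX1' : ‖X‖ = 1 := le_antisymm hX (not_lt.1 h5)
      rw [hX1', one_mul] at h3
      have h6 : 3 * X ^ 2 - d ^ 2 = 3 * (X ^ 2 - d ^ 2) + 2 * d ^ 2 := by ring
      rw [h6]
      apply add_eq1 hu
      · rw [norm_mul]
        calc ‖(3 : F)‖ * ‖X ^ 2 - d ^ 2‖ ≤ 1 * ‖X ^ 2 - d ^ 2‖ :=
              mul_le_mul_of_nonneg_right n3 (norm_nonneg _)
          _ < 1 := by rw [one_mul]; exact h3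
      · rw [norm_mul, norm_pow, hd, n2, one_pow, one_mul]
  set P : Pt d := Point.some X1 Y1 h1 with hP
  set Q : Pt d := Point.some X2 Y2 h2 with hQ
  have hP0 : P ≠ 0 := Point.some_ne_zero h1
  have hQ0 : Q ≠ 0 := Point.some_ne_zero h2
  have hQn : -Q ≠ 0 := neg_ne_zero.2 hQ0
  have cXP : cX P = X1 := rfl
  have cYP : cY P = Y1 := rfl
  have cXQ : cX Q = X2 := rfl
  have cYQ : cY Q = Y2 := rfl
  have hBig : ∀ R : Pt d, R ≠ 0 → (Big 1 R ↔ 1 < ‖cX R‖) := by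
    intro R hR
    unfold Big
    rw [norm_div, hd, div_one]
    exact ⟨fun h => h.resolve_left hR, Or.inr⟩
  by_cases hX : X1 = X2
  · rcases H32.eq_or_neg (P := P) (Q := Q) hP0 hQ0 hX with h | h
    · have hY : Y1 = Y2 := by rw [← cYP, ← cYQ, h]
      rw [h, sub_self, hX, hY, sub_self, sub_self, norm_zero]
      exact ⟨fun _ => ⟨zero_lt_one, zero_lt_one⟩, fun _ => Or.inl rfl⟩
    · have hY : Y1 = -Y2 := by rw [← cYP, ← cYQ, h, H32.cY_neg]
      by_cases hY0 : Y1 = 0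
      · have hQP : P = Q := by
          apply H32.ext_pt hP0 hQ0 hX
          rw [cYP, cYQ, hY0]
          rw [hY0] at hY
          exact (neg_eq_zero.1 hY.symm).symm
        have hY' : Y1 = Y2 := by rw [← cYP, ← cYQ, hQP]
        rw [hQP, sub_self, hX, hY', sub_self, sub_self, norm_zero]
        exact ⟨fun _ => ⟨zero_lt_one, zero_lt_one⟩, fun _ => Or.inl rfl⟩
      · have hPQ : P - Q = P + P := by
          rw [sub_eq_add_neg]
          congr 1
          rw [h]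
        obtain ⟨hne, hcx, -⟩ := H32.add_self (P := P) h20 (by rw [cYP]; exact hY0)
        rw [hPQ, hBig _ hne, hcx, cXP, cYP]
        have hYY : Y1 - Y2 = 2 * Y1 := by
          have : Y2 = -Y1 := by rw [hY, neg_neg]
          rw [this]
          ring
        rw [big_iff hu (by rw [norm_mul, n2, one_mul]; exact hX1), hX, sub_self, norm_zero, hYY,
          norm_mul, n2, one_mul, norm_pow, norm_div, norm_mul, n2, one_mul, ← hX]
        have hYpos : 0 < ‖Y1‖ := norm_pos_iff.2 hY0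
        constructor
        · intro h3
          refine ⟨zero_lt_one, ?_⟩
          have h4 : 1 < ‖3 * X1 ^ 2 - d ^ 2‖ / ‖Y1‖ := by
            by_contra h5
            exact absurd (pow_le_one₀ (by positivity) (not_lt.1 h5)) (not_le.2 h3)
          rw [lt_div_iff₀ hYpos, one_mul] at h4
          refine h4.trans_le ?_
          apply sub_le1 hu
          · rw [norm_mul, norm_pow]
            exact mul_le_one₀ n3 (by positivity) (pow_le_one₀ (norm_nonneg _) hX1)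
          · rw [norm_pow, hd, one_pow]
        · rintro ⟨-, h3⟩
          rw [hunit X1 Y1 hX1 h3 e1]
          exact one_lt_pow₀ (by rw [lt_div_iff₀ hYpos, one_mul]; exact h3) (by norm_num)
  · have hXne : cX P ≠ cX (-Q) := by rw [H32.cX_neg]; exact hX
    obtain ⟨hne, hcx, -⟩ := H32.add_ne (P := P) (Q := -Q) hP0 hQn hXne
    have hXpos : 0 < ‖X1 - X2‖ := norm_pos_iff.2 (sub_ne_zero.2 hX)
    rw [sub_eq_add_neg, hBig _ hne, hcx, H32.cX_neg, H32.cY_neg, cXP, cXQ, cYP, cYQ, sub_neg_eq_add,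
      sub_sub, big_iff hu (add_le1 hu hX1 hX2), norm_pow, norm_div]
    have hiff : 1 < (‖Y1 + Y2‖ / ‖X1 - X2‖) ^ 2 ↔ ‖X1 - X2‖ < ‖Y1 + Y2‖ := by
      rw [one_lt_sq_iff₀ (by positivity), one_lt_div hXpos]
    rw [hiff]
    have hN : (Y1 - Y2) * (Y1 + Y2) = (X1 - X2) * (X1 ^ 2 + X1 * X2 + X2 ^ 2 - d ^ 2) := by
      linear_combination e1 - e2
    have hNn : ‖Y1 - Y2‖ * ‖Y1 + Y2‖ = ‖X1 - X2‖ * ‖X1 ^ 2 + X1 * X2 + X2 ^ 2 - d ^ 2‖ := by
      rw [← norm_mul, hN, norm_mul]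
    have hsq1 : ‖X1 ^ 2‖ ≤ 1 := by rw [norm_pow]; exact pow_le_one₀ (norm_nonneg _) hX1
    have hsq2 : ‖X2 ^ 2‖ ≤ 1 := by rw [norm_pow]; exact pow_le_one₀ (norm_nonneg _) hX2
    have hm : ‖X1 * X2‖ ≤ 1 := by rw [norm_mul]; exact mul_le_one₀ hX1 (norm_nonneg _) hX2
    have hNle : ‖X1 ^ 2 + X1 * X2 + X2 ^ 2 - d ^ 2‖ ≤ 1 := by
      refine sub_le1 hu (add_le1 hu (add_le1 hu hsq1 hm) hsq2) ?_
      rw [norm_pow, hd, one_pow]
    constructor
    · intro h3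
      have h4 : ‖Y1 + Y2‖ ≤ 1 := add_le1 hu hY1 hY2
      refine ⟨h3.trans_le h4, ?_⟩
      by_contra h5
      have h6 : ‖Y1 - Y2‖ = 1 := le_antisymm (sub_le1 hu hY1 hY2) (not_lt.1 h5)
      rw [h6, one_mul] at hNn
      nlinarith [norm_nonneg (X1 - X2)]
    · rintro ⟨h3, h4⟩
      by_cases h5 : ‖Y1‖ < 1
      · have h6 := hunit X1 Y1 hX1 h5 e1
        have h7 : ‖X1 ^ 2 + X1 * X2 + X2 ^ 2 - d ^ 2‖ = 1 := by
          have h8 : X1 ^ 2 + X1 * X2 + X2 ^ 2 - d ^ 2 =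
              (X1 - X2) * -(X2 + 2 * X1) + (3 * X1 ^ 2 - d ^ 2) := by ring
          rw [h8]
          apply add_eq1 hu _ h6
          rw [norm_mul, norm_neg]
          have h9 : ‖X2 + 2 * X1‖ ≤ 1 :=
            add_le1 hu hX2 (by rw [norm_mul, n2, one_mul]; exact hX1)
          calc ‖X1 - X2‖ * ‖X2 + 2 * X1‖ ≤ ‖X1 - X2‖ * 1 :=
                mul_le_mul_of_nonneg_left h9 (norm_nonneg _)
            _ < 1 := by rw [mul_one]; exact h3
        rw [h7, mul_one] at hNn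
        have hYpos : 0 < ‖Y1 + Y2‖ := by
          rcases (norm_nonneg (Y1 + Y2)).lt_or_eq with h8 | h8
          · exact h8
          · rw [← h8, mul_zero] at hNn
            linarith
        nlinarith
      · have h6 : ‖Y1‖ = 1 := le_antisymm hY1 (not_lt.1 h5)
        have h7 : Y1 + Y2 = -(Y1 - Y2) + 2 * Y1 := by ring
        have h8 : ‖Y1 + Y2‖ = 1 := by
          rw [h7]
          exact add_eq1 hu (by rwa [norm_neg]) (by rw [norm_mul, n2, h6, one_mul])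
        rw [h8]
        exact h3

end Pool.Agent.WAP.H75
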