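import Pool.Agent.WAP.StmtsC
import Pool.Agent.WAP.Alg

/-! Squad WAP, row CXD: the complex place. -/

namespace Pool.Agent.WAP.H75

open Pool.Agent.WAP Pool.Agent.WAP.C Classical

/-- the diagonal point -/
theorem diag {F : Type} [Field F] (h2 : (2 : F) ≠ 0) {τ : F} (hτ : cub τ ≠ 0) :
    kum (cub τ) (mkPt (cub τ) (τ * cub τ) (cub τ ^ 2)) (mkPt (cub τ) (τ * cub τ) (cub τ ^ 2)) =
      (τ, τ, cub τ) := by
  have h := G.isP_mk (d := cub τ) (x := τ) (y := 1) h2 hτ (by ring)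
  have e : mkPt (cub τ) (cub τ * τ) (cub τ ^ 2 * 1) = mkPt (cub τ) (τ * cub τ) (cub τ ^ 2) := by
    rw [mul_one, mul_comm]
  rw [e] at h
  rw [kum_eq hτ, h.xn_eq hτ, h.yn_eq hτ, mul_one, mul_one]

theorem onU_diag {F : Type} [Field F] {τ : F} (hτ : cub τ ≠ 0) : OnU (τ, τ, cub τ) :=
  ⟨by show cub τ ^ 2 = cub τ * cub τ; ring, hτ⟩

theorem act_diag {F : Type} [Field F] [Algebra GaussianInt F] (fra : FraStmt)
    (h2 : (2 : F) ≠ 0) {τ : F} (hτ : cub τ ≠ 0) (k : GaussianInt) :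
    actf 1 0 (k - 1) 1 (τ, τ, cub τ) = ck k τ := by
  have h1 := fra F h2 (cub τ) (mkPt (cub τ) (τ * cub τ) (cub τ ^ 2))
    (mkPt (cub τ) (τ * cub τ) (cub τ ^ 2)) 1 0 (k - 1) 1 hτ (by
      rw [diag h2 hτ]
      exact onU_diag hτ)
  rw [diag h2 hτ] at h1
  rw [h1, G.one_sm, G.zero_sm, add_zero]
  unfold ck
  congr 1
  have h3 := G.add_sm (k - 1) 1 (mkPt (cub τ) (τ * cub τ) (cub τ ^ 2))
  rw [sub_add_cancel, G.one_sm] at h3
  exact h3.symm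

theorem cxd (cfi : CfiStmt) (con : ConStmt) (fra : FraStmt) : Pool.Agent.WAP.CxdStmt := by
  intro F _ _ hF V hV hex k0 m hm
  have h2 : (2 : F) ≠ 0 := by
    obtain ⟨σ, -⟩ := hF
    intro h
    have h3 : σ 2 = 0 := by rw [h, map_zero]
    rw [map_ofNat] at h3
    exact two_ne_zero h3
  obtain ⟨k, τ₀, hk, hckV, hckU⟩ := cfi F hF V hV hex k0 m hm
  have hτ₀ : cub τ₀ ≠ 0 := by
    intro h
    apply hckU.2
    show cY _ * cY _ / cub τ₀ ^ 3 = 0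
    rw [h]
    simp
  have hstep : Step (.act 1 0 (k - 1) 1) (τ₀, τ₀, cub τ₀) (ck k τ₀) :=
    ⟨onU_diag hτ₀, hckU, by ring, (act_diag fra h2 hτ₀ k).symm⟩
  obtain ⟨O, hO, hzO, hOV⟩ := con F (Or.inr hF) _ _ _ hstep V hV hckV
  have hcub : Continuous (fun τ : F => cub τ) := by
    unfold cub
    fun_prop
  refine ⟨k, {τ | cub τ ≠ 0} ∩ (fun τ : F => (τ, τ, cub τ)) ⁻¹' O, hk, ?_, ⟨τ₀, hτ₀, hzO⟩, ?_⟩
  · apply IsOpen.inter
    · exact isOpen_ne_fun hcub continuous_const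
    · exact hO.preimage (by fun_prop)
  · rintro τ ⟨h1, h3⟩
    obtain ⟨z2, hz2, hst⟩ := hOV _ h3 (onU_diag h1)
    have h4 : z2 = ck k τ := by
      rw [← act_diag fra h2 h1 k]
      exact hst.2.2.2
    rw [← h4]
    exact ⟨hz2, hst.2.1⟩

end Pool.Agent.WAP.H75
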